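import Mathlib

set_option autoImplicit false

namespace Pool.Agent.X67.EK

open Finset

/-- number of `m ∈ [1,M]` in a residue class -/
theorem count_class (M r v : ℕ) (hr : 0 < r) :
    |((((Icc 1 M).filter (fun m => m ≡ v [MOD r])).card : ℝ)) - (M : ℝ) / r| ≤ 1 := by
  have h0 : (Icc 1 M).filter (fun m => m ≡ v [MOD r]) = (Ioc 0 M).filter (fun m => m ≡ v [MOD r]) := by
    congr 1
  rw [h0]
  have h1 := Nat.Ioc_filter_modEq_card 0 M hr v
  have h2 : ((((Ioc 0 M).filter (fun m => m ≡ v [MOD r])).card : ℤ) : ℝ)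
      = ((max (⌊((M : ℚ) - v) / r⌋ - ⌊(((0 : ℕ) : ℚ) - v) / r⌋) 0 : ℤ) : ℝ) := by
    rw [h1]
  rw [Int.cast_natCast] at h2
  rw [h2]
  have hrQ : (0 : ℚ) < r := by exact_mod_cast hr
  have a1 := Int.floor_le (((M : ℚ) - v) / r)
  have a2 := Int.lt_floor_add_one (((M : ℚ) - v) / r)
  have b1 := Int.floor_le ((((0 : ℕ) : ℚ) - v) / r)
  have b2 := Int.lt_floor_add_one ((((0 : ℕ) : ℚ) - v) / r)
  have e1 : ((M : ℚ) - v) / r - (((0 : ℕ) : ℚ) - v) / r = (M : ℚ) / r := by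
    push_cast; ring
  set A : ℤ := ⌊((M : ℚ) - v) / r⌋
  set B : ℤ := ⌊(((0 : ℕ) : ℚ) - v) / r⌋
  have hM0 : (0 : ℚ) ≤ (M : ℚ) / r := by positivity
  have c1 : ((A - B : ℤ) : ℚ) ≤ (M : ℚ) / r + 1 := by push_cast; linarith
  have c2 : (M : ℚ) / r - 1 ≤ ((A - B : ℤ) : ℚ) := by push_cast; linarith
  have d1 : ((max (A - B) 0 : ℤ) : ℚ) ≤ (M : ℚ) / r + 1 := by
    rw [Int.cast_max]
    apply max_le c1
    push_cast; linarith
  have d2 : (M : ℚ) / r - 1 ≤ ((max (A - B) 0 : ℤ) : ℚ) := by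
    rw [Int.cast_max]
    exact c2.trans (le_max_left _ _)
  have e3 : ((M : ℚ) / r : ℚ) = ((M : ℚ) / (r : ℚ)) := rfl
  have d1' : ((max (A - B) 0 : ℤ) : ℝ) ≤ (M : ℝ) / r + 1 := by
    have := (Rat.cast_le (K := ℝ)).2 d1
    rw [Rat.cast_add, Rat.cast_div, Rat.cast_natCast, Rat.cast_natCast, Rat.cast_one, Rat.cast_intCast] at this
    exact this
  have d2' : (M : ℝ) / r - 1 ≤ ((max (A - B) 0 : ℤ) : ℝ) := by
    have := (Rat.cast_le (K := ℝ)).2 d2
    rw [Rat.cast_sub, Rat.cast_div, Rat.cast_natCast, Rat.cast_natCast, Rat.cast_one, Rat.cast_intCast] at this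
    exact this
  rw [abs_le]
  constructor <;> linarith

/-- second moment of a sum of indicators -/
theorem second_moment {ι : Type*} [DecidableEq ι] (K : Finset ι) (w : ι → ℝ) (M : ℕ)
    (E : ι → ℕ → Prop) [∀ k m, Decidable (E k m)]
    (hw0 : ∀ k ∈ K, 0 ≤ w k) (hw1 : ∀ k ∈ K, w k ≤ 1)
    (h1 : ∀ k ∈ K, |(((Icc 1 M).filter (fun m => E k m)).card : ℝ) - M * w k| ≤ 1)
    (h2 : ∀ k ∈ K, ∀ l ∈ K, k ≠ l →
      (((Icc 1 M).filter (fun m => E k m ∧ E l m)).card : ℝ) ≤ M * (w k * w l) + 1) :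
    ∑ m ∈ Icc 1 M, (((K.filter (fun k => E k m)).card : ℝ) - ∑ k ∈ K, w k) ^ 2 ≤
      M * (∑ k ∈ K, w k) + 4 * (K.card : ℝ) ^ 2 := by
  set T : ℝ := ∑ k ∈ K, w k with hT
  have hT0 : 0 ≤ T := Finset.sum_nonneg hw0
  have hT1 : T ≤ K.card := by
    have := Finset.sum_le_card_nsmul K w 1 hw1
    simpa using this
  -- indicator form
  set I : ι → ℕ → ℝ := fun k m => if E k m then 1 else 0 with hI
  have hZ : ∀ m, ((K.filter (fun k => E k m)).card : ℝ) = ∑ k ∈ K, I k m := by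
    intro m
    rw [Finset.card_filter]; push_cast; rfl
  have hE : ∀ k, ((((Icc 1 M).filter (fun m => E k m)).card : ℝ)) = ∑ m ∈ Icc 1 M, I k m := by
    intro k
    rw [Finset.card_filter]; push_cast; rfl
  have hEE : ∀ k l, ((((Icc 1 M).filter (fun m => E k m ∧ E l m)).card : ℝ)) =
      ∑ m ∈ Icc 1 M, I k m * I l m := by
    intro k l
    rw [Finset.card_filter]; push_cast
    apply Finset.sum_congr rfl
    intro m _
    simp only [hI]
    by_cases ha : E k m <;> by_cases hb : E l m <;> simp [ha, hb]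
  have hII : ∀ k m, I k m * I k m = I k m := by
    intro k m; simp only [hI]; split_ifs <;> simp
  have s1 : ∑ m ∈ Icc 1 M, ((K.filter (fun k => E k m)).card : ℝ) ≥ M * T - K.card := by
    simp_rw [hZ]
    rw [Finset.sum_comm]
    have : ∑ k ∈ K, ((M : ℝ) * w k - 1) ≤ ∑ k ∈ K, ∑ m ∈ Icc 1 M, I k m := by
      apply Finset.sum_le_sum
      intro k hk
      have := abs_le.1 (h1 k hk)
      rw [hE] at this
      linarith [this.1]
    rw [Finset.sum_sub_distrib, ← Finset.mul_sum] at this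
    simp only [Finset.sum_const, nsmul_eq_mul, mul_one] at this
    linarith
  have s2 : ∑ m ∈ Icc 1 M, ((K.filter (fun k => E k m)).card : ℝ) ^ 2 ≤
      (M * T + K.card) + (M * T ^ 2 + (K.card : ℝ) ^ 2) := by
    have e1 : ∀ m, ((K.filter (fun k => E k m)).card : ℝ) ^ 2 =
        ∑ k ∈ K, ∑ l ∈ K, I k m * I l m := by
      intro m
      rw [hZ, sq, Finset.sum_mul_sum]
    simp_rw [e1]
    rw [Finset.sum_comm]
    have e2 : ∑ k ∈ K, ∑ m ∈ Icc 1 M, ∑ l ∈ K, I k m * I l m =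
        ∑ k ∈ K, ∑ l ∈ K, ∑ m ∈ Icc 1 M, I k m * I l m := by
      apply Finset.sum_congr rfl
      intro k _
      rw [Finset.sum_comm]
    rw [e2]
    have e3 : ∀ k ∈ K, ∑ l ∈ K, ∑ m ∈ Icc 1 M, I k m * I l m ≤
        (M * w k + 1) + ∑ l ∈ K, (M * (w k * w l) + 1) := by
      intro k hk
      rw [← Finset.add_sum_erase K _ hk]
      apply add_le_add
      · simp_rw [hII]
        have := abs_le.1 (h1 k hk)
        rw [hE] at this
        linarith [this.2]
      · calc ∑ l ∈ K.erase k, ∑ m ∈ Icc 1 M, I k m * I l m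
            ≤ ∑ l ∈ K.erase k, (M * (w k * w l) + 1) := by
              apply Finset.sum_le_sum
              intro l hl
              rw [← hEE]
              exact h2 k hk l (Finset.mem_of_mem_erase hl) (Finset.ne_of_mem_erase hl).symm
          _ ≤ ∑ l ∈ K, (M * (w k * w l) + 1) := by
              apply Finset.sum_le_sum_of_subset_of_nonneg (Finset.erase_subset _ _)
              intro l hl _
              have := mul_nonneg (hw0 k hk) (hw0 l hl)
              positivity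
    calc ∑ k ∈ K, ∑ l ∈ K, ∑ m ∈ Icc 1 M, I k m * I l m
        ≤ ∑ k ∈ K, ((M * w k + 1) + ∑ l ∈ K, (M * (w k * w l) + 1)) := Finset.sum_le_sum e3
      _ = _ := by
        rw [Finset.sum_add_distrib, Finset.sum_add_distrib]
        simp_rw [Finset.sum_add_distrib]
        simp only [Finset.sum_const, nsmul_eq_mul, mul_one]
        rw [← Finset.mul_sum]
        have : ∑ k ∈ K, ∑ l ∈ K, (M : ℝ) * (w k * w l) = M * T ^ 2 := by
          rw [sq, hT, Finset.sum_mul_sum, Finset.mul_sum]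
          apply Finset.sum_congr rfl
          intro k _
          rw [Finset.mul_sum]
        rw [this, ← hT]
        ring
  have e4 : ∑ m ∈ Icc 1 M, (((K.filter (fun k => E k m)).card : ℝ) - T) ^ 2 =
      ∑ m ∈ Icc 1 M, ((K.filter (fun k => E k m)).card : ℝ) ^ 2
        - 2 * T * ∑ m ∈ Icc 1 M, ((K.filter (fun k => E k m)).card : ℝ) + M * T ^ 2 := by
    have : ∀ m ∈ Icc 1 M, (((K.filter (fun k => E k m)).card : ℝ) - T) ^ 2 =
      ((K.filter (fun k => E k m)).card : ℝ) ^ 2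
        - 2 * T * ((K.filter (fun k => E k m)).card : ℝ) + T ^ 2 := by intro m _; ring
    rw [Finset.sum_congr rfl this, Finset.sum_add_distrib, Finset.sum_sub_distrib, ← Finset.mul_sum]
    simp
  rw [e4]
  have hK0 : (0 : ℝ) ≤ K.card := by positivity
  have hK1 : (K.card : ℝ) ≤ (K.card : ℝ) ^ 2 := by
    by_cases h : K.card = 0
    · rw [h]; simp
    · have : 1 ≤ K.card := Nat.one_le_iff_ne_zero.2 h
      have : (1 : ℝ) ≤ K.card := by exact_mod_cast this
      nlinarith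
  nlinarith [mul_nonneg hT0 (sub_nonneg.2 s1.le), mul_nonneg hT0 hK0, mul_le_mul_of_nonneg_right hT1 hK0]

end Pool.Agent.X67.EK
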