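import Mathlib
import Pool.Agent.Erdos456.Mertens
import Pool.Agent.X67.EK.Var

set_option autoImplicit false

namespace Pool.Agent.X67.EK

open Finset Filter

/-- primes up to `y` not dividing `a` -/
def PA (a y : ℕ) : Finset ℕ := ((Icc 1 y).filter Nat.Prime).filter (fun p => ¬ p ∣ a)

theorem exists_class (a p : ℕ) (hp : p.Prime) (ha : ¬ p ∣ a) :
    ∃ c : ℕ, ∀ m, p ∣ a * m + 1 ↔ m ≡ c [MOD p] := by
  have : Fact p.Prime := ⟨hp⟩
  have ha0 : (a : ZMod p) ≠ 0 := by
    intro h
    exact ha ((ZMod.natCast_eq_zero_iff a p).1 h)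
  refine ⟨(-(a : ZMod p)⁻¹).val, fun m => ?_⟩
  rw [← ZMod.natCast_eq_zero_iff, ← ZMod.natCast_eq_natCast_iff]
  push_cast
  rw [ZMod.natCast_zmod_val]
  constructor
  · intro h
    have h1 : (a : ZMod p) * m = -1 := by
      have := congrArg (fun z => z - 1) h
      simpa using this
    have h2 : (m : ZMod p) = (a : ZMod p)⁻¹ * ((a : ZMod p) * m) := by
      rw [← mul_assoc, inv_mul_cancel₀ ha0, one_mul]
    rw [h2, h1]; ring
  · intro h
    rw [h, mul_neg, mul_inv_cancel₀ ha0]; ring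

/-- the events -/
def Ev (a : ℕ) (k : ℕ × Bool) (m : ℕ) : Prop := if k.2 then k.1 ∣ a * m + 1 else k.1 ∣ m

instance (a : ℕ) (k : ℕ × Bool) (m : ℕ) : Decidable (Ev a k m) := by unfold Ev; infer_instance

theorem ev_class (a : ℕ) (k : ℕ × Bool) (hp : k.1.Prime) (ha : ¬ k.1 ∣ a) :
    ∃ c : ℕ, ∀ m, Ev a k m ↔ m ≡ c [MOD k.1] := by
  obtain ⟨p, b⟩ := k
  cases b with
  | false =>
    refine ⟨0, fun m => ?_⟩
    simp only [Ev, Bool.false_eq_true, if_false]
    exact (Nat.modEq_zero_iff_dvd).symm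
  | true =>
    obtain ⟨c, hc⟩ := exists_class a p hp ha
    refine ⟨c, fun m => ?_⟩
    simp only [Ev, if_true]
    exact hc m

theorem ev_excl (a p m : ℕ) (hp : p.Prime) (h1 : p ∣ m) (h2 : p ∣ a * m + 1) : False := by
  have h3 : p ∣ a * m := Dvd.dvd.mul_left h1 a
  have h4 : p ∣ 1 := (Nat.dvd_add_right h3).1 h2
  exact hp.one_lt.ne' (Nat.dvd_one.1 h4)

theorem mem_PA {a y p : ℕ} : p ∈ PA a y ↔ (1 ≤ p ∧ p ≤ y) ∧ p.Prime ∧ ¬ p ∣ a := by
  unfold PA; rw [mem_filter, mem_filter, mem_Icc]; tauto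

theorem card_PA_le (a y : ℕ) : (PA a y).card ≤ y := by
  unfold PA
  calc _ ≤ ((Icc 1 y).filter Nat.Prime).card := card_filter_le _ _
    _ ≤ (Icc 1 y).card := card_filter_le _ _
    _ = y := by simp

theorem sum_PA_ge (a y : ℕ) (ha : 1 ≤ a) :
    ∑ p ∈ (Icc 1 y).filter Nat.Prime, (1 : ℝ) / p - a ≤ ∑ p ∈ PA a y, (1 : ℝ) / p := by
  unfold PA
  rw [← Finset.sum_filter_add_sum_filter_not ((Icc 1 y).filter Nat.Prime) (fun p => p ∣ a)]
  have h1 : ∑ p ∈ ((Icc 1 y).filter Nat.Prime).filter (fun p => p ∣ a), (1 : ℝ) / p ≤ a := by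
    calc ∑ p ∈ ((Icc 1 y).filter Nat.Prime).filter (fun p => p ∣ a), (1 : ℝ) / p
        ≤ ∑ p ∈ ((Icc 1 y).filter Nat.Prime).filter (fun p => p ∣ a), (1 : ℝ) := by
          apply Finset.sum_le_sum
          intro p hp
          rw [mem_filter, mem_filter, mem_Icc] at hp
          have : (1 : ℝ) ≤ p := by exact_mod_cast hp.1.1.1
          rw [div_le_one (by linarith)]; exact this
      _ = ((((Icc 1 y).filter Nat.Prime).filter (fun p => p ∣ a)).card : ℝ) := by simp
      _ ≤ ((Icc 1 a).card : ℝ) := by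
          have : (((Icc 1 y).filter Nat.Prime).filter (fun p => p ∣ a)) ⊆ Icc 1 a := by
            intro p hp
            rw [mem_filter, mem_filter, mem_Icc] at hp
            rw [mem_Icc]
            exact ⟨hp.1.1.1, Nat.le_of_dvd ha hp.2⟩
          exact_mod_cast card_le_card this
      _ = a := by simp
  linarith

/-- the second moment bound for our events -/
theorem moment_app (a y M : ℕ) (hyM : y * y ≤ M) :
    ∑ m ∈ Icc 1 M, (((((PA a y) ×ˢ (Finset.univ : Finset Bool)).filter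
        (fun k => Ev a k m)).card : ℝ) - 2 * ∑ p ∈ PA a y, (1 : ℝ) / p) ^ 2 ≤
      M * (2 * ∑ p ∈ PA a y, (1 : ℝ) / p) + 16 * M := by
  classical
  have hT : ∑ k ∈ (PA a y) ×ˢ (Finset.univ : Finset Bool), (1 : ℝ) / (k.1 : ℝ) =
      2 * ∑ p ∈ PA a y, (1 : ℝ) / p := by
    rw [Finset.sum_product]
    simp only [Fintype.univ_bool, Finset.mem_singleton, Bool.true_eq_false, not_false_eq_true,
      Finset.sum_insert, Finset.sum_singleton]
    rw [Finset.mul_sum]
    apply Finset.sum_congr rfl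
    intro p _; ring
  have hm := second_moment ((PA a y) ×ˢ (Finset.univ : Finset Bool)) (fun k => (1 : ℝ) / (k.1 : ℝ)) M
    (Ev a) ?_ ?_ ?_ ?_
  · rw [hT] at hm
    refine hm.trans ?_
    have hc : (((PA a y) ×ˢ (Finset.univ : Finset Bool)).card : ℝ) ≤ 2 * y := by
      rw [Finset.card_product]
      have h1 := card_PA_le a y
      have h2 : (Finset.univ : Finset Bool).card = 2 := by simp
      rw [h2]; push_cast
      have : ((PA a y).card : ℝ) ≤ y := by exact_mod_cast h1
      linarith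
    have h0 : (0 : ℝ) ≤ (((PA a y) ×ˢ (Finset.univ : Finset Bool)).card : ℝ) := by positivity
    have hy : (y : ℝ) * y ≤ M := by exact_mod_cast hyM
    have hy0 : (0 : ℝ) ≤ y := by positivity
    nlinarith
  · intro k _; positivity
  · intro k hk
    rw [Finset.mem_product] at hk
    have := (mem_PA.1 hk.1).1.1
    have h1 : (1 : ℝ) ≤ k.1 := by exact_mod_cast this
    rw [div_le_one (by linarith)]; exact h1
  · intro k hk
    rw [Finset.mem_product] at hk
    obtain ⟨_, hp, hpa⟩ := mem_PA.1 hk.1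
    obtain ⟨c, hc⟩ := ev_class a k hp hpa
    have h1 := count_class M k.1 c hp.pos
    have h2 : (Icc 1 M).filter (fun m => Ev a k m) = (Icc 1 M).filter (fun m => m ≡ c [MOD k.1]) := by
      apply Finset.filter_congr
      intro m _; exact hc m
    rw [h2]
    have h3 : (M : ℝ) * (1 / (k.1 : ℝ)) = (M : ℝ) / k.1 := by ring
    rw [h3]; exact h1
  · intro k hk l hl hkl
    rw [Finset.mem_product] at hk hl
    obtain ⟨_, hp, hpa⟩ := mem_PA.1 hk.1
    obtain ⟨_, hq, hqa⟩ := mem_PA.1 hl.1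
    by_cases hpq : k.1 = l.1
    · have hemp : (Icc 1 M).filter (fun m => Ev a k m ∧ Ev a l m) = ∅ := by
        apply Finset.filter_eq_empty_iff.2
        rintro m _ ⟨e1, e2⟩
        obtain ⟨p, b⟩ := k
        obtain ⟨p', b'⟩ := l
        simp only at hpq hp
        subst hpq
        cases b <;> cases b'
        · exact hkl rfl
        · simp only [Ev, Bool.false_eq_true, if_false, if_true] at e1 e2
          exact ev_excl a p m hp e1 e2
        · simp only [Ev, Bool.false_eq_true, if_false, if_true] at e1 e2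
          exact ev_excl a p m hp e2 e1
        · exact hkl rfl
      rw [hemp]; simp only [Finset.card_empty, Nat.cast_zero]
      positivity
    · have hco : Nat.Coprime k.1 l.1 := (Nat.coprime_primes hp hq).2 hpq
      obtain ⟨c, hc⟩ := ev_class a k hp hpa
      obtain ⟨d, hd⟩ := ev_class a l hq hqa
      obtain ⟨z, hz1, hz2⟩ := Nat.chineseRemainder hco c d
      have h2 : (Icc 1 M).filter (fun m => Ev a k m ∧ Ev a l m) =
          (Icc 1 M).filter (fun m => m ≡ z [MOD (k.1 * l.1)]) := by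
        apply Finset.filter_congr
        intro m _
        rw [hc m, hd m, ← Nat.modEq_and_modEq_iff_modEq_mul hco]
        constructor
        · rintro ⟨u, v⟩; exact ⟨u.trans hz1.symm, v.trans hz2.symm⟩
        · rintro ⟨u, v⟩; exact ⟨u.trans hz1, v.trans hz2⟩
      rw [h2]
      have h1 := abs_le.1 (count_class M (k.1 * l.1) z (Nat.mul_pos hp.pos hq.pos))
      have h3 : (M : ℝ) * (1 / (k.1 : ℝ) * (1 / (l.1 : ℝ))) = (M : ℝ) / ((k.1 * l.1 : ℕ) : ℝ) := by
        push_cast; field_simp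
      rw [h3]
      linarith [h1.2]

theorem Z_le_omega (a y m : ℕ) (hm : 1 ≤ m) :
    (((PA a y) ×ˢ (Finset.univ : Finset Bool)).filter (fun k => Ev a k m)).card ≤
      (m * (a * m + 1)).primeFactors.card := by
  apply Finset.card_le_card_of_injOn (fun k => k.1)
  · intro k hk
    rw [Finset.mem_coe, Finset.mem_filter, Finset.mem_product] at hk
    obtain ⟨_, hp, _⟩ := mem_PA.1 hk.1.1
    rw [Finset.mem_coe, Nat.mem_primeFactors]
    refine ⟨hp, ?_, by positivity⟩
    have h := hk.2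
    unfold Ev at h
    split_ifs at h
    · exact Dvd.dvd.mul_left h _
    · exact Dvd.dvd.mul_right h _
  · rintro ⟨p, b⟩ hk ⟨p', b'⟩ hl hpp
    rw [Finset.mem_coe, Finset.mem_filter, Finset.mem_product] at hk hl
    simp only at hpp
    subst hpp
    obtain ⟨_, hp, _⟩ := mem_PA.1 hk.1.1
    have e1 := hk.2
    have e2 := hl.2
    cases b <;> cases b'
    · rfl
    · simp only [Ev, Bool.false_eq_true, if_false, if_true] at e1 e2
      exact (ev_excl a p m hp e1 e2).elim
    · simp only [Ev, Bool.false_eq_true, if_false, if_true] at e1 e2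
      exact (ev_excl a p m hp e2 e1).elim
    · rfl

/-- Chebyshev -/
theorem cheb (M : ℕ) (Z : ℕ → ℝ) (T : ℝ) (hT : 160 ≤ T)
    (h : ∑ m ∈ Icc 1 M, (Z m - T) ^ 2 ≤ M * T + 16 * M) :
    (M : ℝ) / 2 ≤ (((Icc 1 M).filter (fun m => (7 / 8) * T ≤ Z m)).card : ℝ) := by
  classical
  have h1 : ∑ m ∈ (Icc 1 M).filter (fun m => ¬ (7 / 8) * T ≤ Z m), (T / 8) ^ 2 ≤
      ∑ m ∈ Icc 1 M, (Z m - T) ^ 2 := by
    calc ∑ m ∈ (Icc 1 M).filter (fun m => ¬ (7 / 8) * T ≤ Z m), (T / 8) ^ 2
        ≤ ∑ m ∈ (Icc 1 M).filter (fun m => ¬ (7 / 8) * T ≤ Z m), (Z m - T) ^ 2 := by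
          apply Finset.sum_le_sum
          intro m hm
          have := (Finset.mem_filter.1 hm).2
          push Not at this
          nlinarith
      _ ≤ _ := by
          apply Finset.sum_le_sum_of_subset_of_nonneg (Finset.filter_subset _ _)
          intro m _ _; positivity
  rw [Finset.sum_const, nsmul_eq_mul] at h1
  have h2 : (((Icc 1 M).filter (fun m => (7 / 8) * T ≤ Z m)).card : ℝ) +
      (((Icc 1 M).filter (fun m => ¬ (7 / 8) * T ≤ Z m)).card : ℝ) = M := by
    have := Finset.card_filter_add_card_filter_not (s := Icc 1 M) (fun m => (7 / 8) * T ≤ Z m)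
    rw [Nat.card_Icc] at this
    exact_mod_cast this
  set B : ℝ := (((Icc 1 M).filter (fun m => ¬ (7 / 8) * T ≤ Z m)).card : ℝ) with hB
  have hB0 : 0 ≤ B := by rw [hB]; positivity
  have hM0 : (0 : ℝ) ≤ M := by positivity
  have h3 : B * (T / 8) ^ 2 ≤ M * T + 16 * M := h1.trans h
  have h4 : (M * T + 16 * M) ≤ (M / 2) * (T / 8) ^ 2 := by
    have : T + 16 ≤ (1 / 2) * (T / 8) ^ 2 := by nlinarith
    nlinarith
  have h5 : B ≤ M / 2 := by
    have hpos : 0 < (T / 8) ^ 2 := by positivity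
    exact le_of_mul_le_mul_right (h3.trans h4) hpos
  linarith

theorem many (a : ℕ) (ha : 1 ≤ a) : ∃ C : ℝ, ∃ M0 : ℕ, ∀ M : ℕ, M0 ≤ M →
    (M : ℝ) / 2 ≤ (((Icc 1 M).filter (fun m => (7 / 4) * Real.log (Real.log M) - C ≤
      ((m * (a * m + 1)).primeFactors.card : ℝ))).card : ℝ) := by
  classical
  obtain ⟨C, hC⟩ := Pool.Agent.Erdos456.Mert.mertens_inv
  set D : ℝ := Real.log 3 + C + a with hD
  have hev : ∀ᶠ M : ℕ in atTop, 80 + D ≤ Real.log (Real.log M) := by
    have : Tendsto (fun M : ℕ => Real.log (Real.log M)) atTop atTop :=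
      Real.tendsto_log_atTop.comp (Real.tendsto_log_atTop.comp tendsto_natCast_atTop_atTop)
    exact this.eventually_ge_atTop _
  obtain ⟨M1, hM1⟩ := (hev.and (eventually_ge_atTop 16)).exists_forall_of_atTop
  refine ⟨(7 / 4) * D, M1, fun M hM => ?_⟩
  obtain ⟨h1, h16⟩ := hM1 M hM
  set y := Nat.sqrt M with hy
  have hy3 : 3 ≤ y := by
    rw [hy, Nat.le_sqrt']; omega
  have hyy : y * y ≤ M := Nat.sqrt_le M
  have hylt : M < (y + 1) * (y + 1) := Nat.lt_succ_sqrt M
  have hy3M : M ≤ y ^ 3 := by nlinarith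
  set T : ℝ := 2 * ∑ p ∈ PA a y, (1 : ℝ) / p with hT
  have hm := moment_app a y M hyy
  rw [← hT] at hm
  have hMpos : (0 : ℝ) < M := by exact_mod_cast (by omega : 0 < M)
  have hypos : (0 : ℝ) < y := by exact_mod_cast (by omega : 0 < y)
  have hlogM : 0 < Real.log M := Real.log_pos (by exact_mod_cast (by omega : 1 < M))
  have hlogy : Real.log M ≤ 3 * Real.log y := by
    have : Real.log M ≤ Real.log ((y : ℝ) ^ 3) := Real.log_le_log hMpos (by exact_mod_cast hy3M)
    rw [Real.log_pow] at this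
    exact_mod_cast this
  have hlogy0 : 0 < Real.log y := by linarith
  have hll : Real.log (Real.log M) - Real.log 3 ≤ Real.log (Real.log y) := by
    have h := Real.log_le_log hlogM hlogy
    rw [Real.log_mul (by norm_num) hlogy0.ne'] at h
    linarith
  have hTge : 2 * (Real.log (Real.log M) - D) ≤ T := by
    have e1 := abs_le.1 (hC y hy3)
    have e2 := sum_PA_ge a y ha
    rw [hT, hD]
    linarith [e1.1]
  have hT160 : 160 ≤ T := by linarith
  have hc := cheb M _ T hT160 hm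
  refine hc.trans ?_
  have : (Icc 1 M).filter (fun m => (7 / 8) * T ≤
      (((((PA a y) ×ˢ (Finset.univ : Finset Bool)).filter (fun k => Ev a k m)).card : ℕ) : ℝ)) ⊆
      (Icc 1 M).filter (fun m => (7 / 4) * Real.log (Real.log M) - (7 / 4) * D ≤
      ((m * (a * m + 1)).primeFactors.card : ℝ)) := by
    intro m hm
    rw [mem_filter, mem_Icc] at hm ⊢
    refine ⟨hm.1, ?_⟩
    have e1 : (((((PA a y) ×ˢ (Finset.univ : Finset Bool)).filter (fun k => Ev a k m)).card : ℕ) : ℝ)
        ≤ ((m * (a * m + 1)).primeFactors.card : ℝ) := by exact_mod_cast Z_le_omega a y m hm.1.1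
    linarith [hm.2]
  exact_mod_cast card_le_card this

end Pool.Agent.X67.EK
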