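import Mathlib
import Pool.Agent.X67.EK.Cnt

set_option autoImplicit false

namespace Pool.Agent.X67.EK

open Finset Filter Topology

/-- `⌊α n² + β n + γ⌋` -/
noncomputable def fl (α β γ : ℝ) (n : ℕ) : ℕ := ⌊α * (n : ℝ) ^ 2 + β * n + γ⌋₊

/-- the value of `X_N^{α,β,γ}` at `n` -/
noncomputable def X (α β γ : ℝ) (N n : ℕ) : ℝ :=
  (((fl α β γ n).primeFactors.card : ℝ) - Real.log (Real.log N)) / Real.sqrt (Real.log (Real.log N))

/-- `P(X_N ≤ x)` for `n` uniform in `{1,…,N}` -/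
noncomputable def cdfX (α β γ : ℝ) (N : ℕ) (x : ℝ) : ℝ :=
  ((((Finset.Icc 1 N).filter (fun n => X α β γ N n ≤ x)).card : ℕ) : ℝ) / N

/-- `P(Z ≤ x)` for `Z` standard normal -/
noncomputable def Phi (x : ℝ) : ℝ := (ProbabilityTheory.gaussianReal 0 1 (Set.Iic x)).toReal

/-- the Kolmogorov distance of `X_N^{α,β,γ}` from the standard normal law -/
noncomputable def dK (α β γ : ℝ) (N : ℕ) : ℝ := ⨆ x : ℝ, |cdfX α β γ N x - Phi x|

/-- admissible triples -/
def Admissible (α β γ : ℝ) : Prop :=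
  0 < α ∧ β ^ 2 < 4 * α * γ ∧ ¬ (∃ a b : ℚ, α = a ∧ β = b)

theorem cdfX_nonneg (α β γ : ℝ) (N : ℕ) (x : ℝ) : 0 ≤ cdfX α β γ N x := by
  unfold cdfX; positivity

theorem cdfX_le_one (α β γ : ℝ) (N : ℕ) (x : ℝ) : cdfX α β γ N x ≤ 1 := by
  unfold cdfX
  apply div_le_one_of_le₀ _ (by positivity)
  have : ((Finset.Icc 1 N).filter (fun n => X α β γ N n ≤ x)).card ≤ N := by
    calc _ ≤ (Finset.Icc 1 N).card := card_filter_le _ _
      _ = N := by simp
  exact_mod_cast this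

theorem Phi_nonneg (x : ℝ) : 0 ≤ Phi x := ENNReal.toReal_nonneg

theorem Phi_le_one (x : ℝ) : Phi x ≤ 1 := by
  unfold Phi
  have h : ProbabilityTheory.gaussianReal 0 1 (Set.Iic x) ≤ 1 := MeasureTheory.prob_le_one
  have := ENNReal.toReal_mono ENNReal.one_ne_top h
  simpa using this

theorem Phi_tendsto : Tendsto Phi atTop (𝓝 1) := by
  have h := ProbabilityTheory.tendsto_cdf_atTop (ProbabilityTheory.gaussianReal 0 1)
  refine h.congr ?_
  intro x
  rw [ProbabilityTheory.cdf_eq_real]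
  rfl

theorem abs_le_dK (α β γ : ℝ) (N : ℕ) (x : ℝ) : |cdfX α β γ N x - Phi x| ≤ dK α β γ N := by
  unfold dK
  apply le_ciSup (f := fun x => |cdfX α β γ N x - Phi x|)
  refine ⟨1, ?_⟩
  rintro _ ⟨y, rfl⟩
  simp only
  rw [abs_le]
  constructor
  · linarith [cdfX_nonneg α β γ N y, Phi_le_one y]
  · linarith [cdfX_le_one α β γ N y, Phi_nonneg y]

theorem dK_congr (α α' β γ : ℝ) (N : ℕ) (h : ∀ n ∈ Icc 1 N, fl α β γ n = fl α' β γ n) :
    dK α β γ N = dK α' β γ N := by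
  have : ∀ x, cdfX α β γ N x = cdfX α' β γ N x := by
    intro x
    unfold cdfX
    congr 3
    apply Finset.filter_congr
    intro n hn
    unfold X
    rw [h n hn]
  unfold dK
  simp_rw [this]

theorem fl_rat (a q m : ℕ) (hq : 1 ≤ q) :
    fl ((a : ℝ) / q) 1 (1 / 2) (q * m) = q * (m * (a * m + 1)) := by
  unfold fl
  rw [Nat.floor_eq_iff (by positivity)]
  have hq0 : (q : ℝ) ≠ 0 := by
    have : (1 : ℝ) ≤ q := by exact_mod_cast hq
    linarith
  have e : (a : ℝ) / q * ((q * m : ℕ) : ℝ) ^ 2 + 1 * ((q * m : ℕ) : ℝ) + 1 / 2 =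
      ((q * (m * (a * m + 1)) : ℕ) : ℝ) + 1 / 2 := by
    push_cast
    field_simp
  rw [e]
  constructor <;> linarith

theorem manyN (a q : ℕ) (ha : 1 ≤ a) (hq : 1 ≤ q) : ∃ N0 : ℕ, ∀ N : ℕ, N0 ≤ N →
    (N : ℝ) / (4 * q) ≤ (((Icc 1 N).filter (fun n => (3 / 2) * Real.log (Real.log N) ≤
      ((fl ((a : ℝ) / q) 1 (1 / 2) n).primeFactors.card : ℝ))).card : ℝ) := by
  classical
  obtain ⟨C, M0, hM⟩ := many a ha
  have hq1 : (1 : ℝ) ≤ q := by exact_mod_cast hq
  have hev1 : ∀ᶠ N : ℕ in atTop, 4 * C + 7 * Real.log 2 ≤ Real.log (Real.log N) := by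
    have : Tendsto (fun M : ℕ => Real.log (Real.log M)) atTop atTop :=
      Real.tendsto_log_atTop.comp (Real.tendsto_log_atTop.comp tendsto_natCast_atTop_atTop)
    exact this.eventually_ge_atTop _
  obtain ⟨N1, hN1⟩ := (hev1.and (eventually_ge_atTop (16 * q * q + q * M0 + 16))).exists_forall_of_atTop
  refine ⟨N1, fun N hN => ?_⟩
  obtain ⟨h1, h2⟩ := hN1 N hN
  set M := N / q with hMdef
  have hqM : q * M ≤ N := Nat.mul_div_le N q
  have hqM2 : N < q * (M + 1) := by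
    rw [hMdef]; exact Nat.lt_mul_div_succ N (by omega)
  have hMM0 : M0 ≤ M := by
    rw [hMdef, Nat.le_div_iff_mul_le (by omega)]; nlinarith
  have hMq : 8 * q ≤ M := by
    rw [hMdef, Nat.le_div_iff_mul_le (by omega)]; nlinarith
  have hNM : N ≤ M ^ 2 := by nlinarith
  have hM' := hM M hMM0
  have hMpos : (0 : ℝ) < M := by exact_mod_cast (by omega : 0 < M)
  have hlogM : 0 < Real.log M := Real.log_pos (by exact_mod_cast (by omega : 1 < M))
  have hNpos : (0 : ℝ) < N := by exact_mod_cast (by omega : 0 < N)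
  have hlogN : 0 < Real.log N := Real.log_pos (by exact_mod_cast (by omega : 1 < N))
  have hlog : Real.log N ≤ 2 * Real.log M := by
    have : Real.log N ≤ Real.log ((M : ℝ) ^ 2) := Real.log_le_log hNpos (by exact_mod_cast hNM)
    rw [Real.log_pow] at this
    exact_mod_cast this
  have hll : Real.log (Real.log N) - Real.log 2 ≤ Real.log (Real.log M) := by
    have h := Real.log_le_log hlogN hlog
    rw [Real.log_mul (by norm_num) hlogM.ne'] at h
    linarith
  -- injection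
  have hinj : ((Icc 1 M).filter (fun m => (7 / 4) * Real.log (Real.log M) - C ≤
      ((m * (a * m + 1)).primeFactors.card : ℝ))).card ≤
      ((Icc 1 N).filter (fun n => (3 / 2) * Real.log (Real.log N) ≤
      ((fl ((a : ℝ) / q) 1 (1 / 2) n).primeFactors.card : ℝ))).card := by
    apply Finset.card_le_card_of_injOn (fun m => q * m)
    · intro m hm
      rw [Finset.mem_coe, mem_filter, mem_Icc] at hm
      rw [Finset.mem_coe, mem_filter, mem_Icc]
      refine ⟨⟨by nlinarith [hm.1.1], by nlinarith [hm.1.2]⟩, ?_⟩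
      rw [fl_rat a q m hq]
      have e1 : (m * (a * m + 1)).primeFactors.card ≤ (q * (m * (a * m + 1))).primeFactors.card := by
        apply Finset.card_le_card
        apply Nat.primeFactors_mono (Dvd.intro_left q rfl)
        have : 1 ≤ m := hm.1.1
        positivity
      have e2 : ((m * (a * m + 1)).primeFactors.card : ℝ) ≤
        ((q * (m * (a * m + 1))).primeFactors.card : ℝ) := by exact_mod_cast e1
      have e3 := hm.2
      linarith
    · intro x _ y _ hxy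
      exact Nat.eq_of_mul_eq_mul_left (by omega) hxy
  have hinj' : ((((Icc 1 M).filter (fun m => (7 / 4) * Real.log (Real.log M) - C ≤
      ((m * (a * m + 1)).primeFactors.card : ℝ))).card : ℕ) : ℝ) ≤
      ((((Icc 1 N).filter (fun n => (3 / 2) * Real.log (Real.log N) ≤
      ((fl ((a : ℝ) / q) 1 (1 / 2) n).primeFactors.card : ℝ))).card : ℕ) : ℝ) := by
    exact_mod_cast hinj
  refine le_trans ?_ (hM'.trans hinj')
  have h3 : (N : ℝ) < q * (M + 1) := by exact_mod_cast hqM2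
  rw [div_le_div_iff₀ (by positivity) (by norm_num)]
  have hM8 : (8 : ℝ) ≤ M := by
    have : 8 ≤ M := by nlinarith
    exact_mod_cast this
  nlinarith

/-- for rational `α` the law does not approach the normal law -/
theorem dK_rat (a q : ℕ) (ha : 1 ≤ a) (hq : 1 ≤ q) : ∃ N0 : ℕ, ∀ N : ℕ, N0 ≤ N →
    1 / (8 * (q : ℝ)) ≤ dK ((a : ℝ) / q) 1 (1 / 2) N := by
  classical
  obtain ⟨N1, hN1⟩ := manyN a q ha hq
  have hq1 : (1 : ℝ) ≤ q := by exact_mod_cast hq
  have hPhi : ∀ᶠ x : ℝ in atTop, 1 - 1 / (8 * (q : ℝ)) < Phi x := by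
    apply Phi_tendsto.eventually_const_lt
    have : 0 < 1 / (8 * (q : ℝ)) := by positivity
    linarith
  obtain ⟨x0, hx0, hx0'⟩ := (hPhi.and (eventually_ge_atTop 1)).exists
  have hev1 : ∀ᶠ N : ℕ in atTop, (2 * x0 + 1) ^ 2 ≤ Real.log (Real.log N) := by
    have : Tendsto (fun M : ℕ => Real.log (Real.log M)) atTop atTop :=
      Real.tendsto_log_atTop.comp (Real.tendsto_log_atTop.comp tendsto_natCast_atTop_atTop)
    exact this.eventually_ge_atTop _
  obtain ⟨N2, hN2⟩ := (hev1.and (eventually_ge_atTop (N1 + 1))).exists_forall_of_atTop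
  refine ⟨N2, fun N hN => ?_⟩
  obtain ⟨h1, h2⟩ := hN2 N hN
  have h3 := hN1 N (by omega)
  have hNpos : (0 : ℝ) < N := by exact_mod_cast (by omega : 0 < N)
  set L := Real.log (Real.log N) with hL
  have hL0 : 0 < L := by nlinarith
  have hs : 2 * x0 + 1 ≤ Real.sqrt L := by
    rw [Real.le_sqrt' (by linarith)]; exact h1
  have hs0 : 0 < Real.sqrt L := Real.sqrt_pos.2 hL0
  have hcdf : cdfX ((a : ℝ) / q) 1 (1 / 2) N x0 ≤ 1 - 1 / (4 * q) := by
    unfold cdfX
    rw [div_le_iff₀ hNpos]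
    have hdis : Disjoint ((Icc 1 N).filter (fun n => (3 / 2) * L ≤
      ((fl ((a : ℝ) / q) 1 (1 / 2) n).primeFactors.card : ℝ)))
      ((Icc 1 N).filter (fun n => X ((a : ℝ) / q) 1 (1 / 2) N n ≤ x0)) := by
      rw [Finset.disjoint_left]
      intro n hn hn'
      rw [mem_filter] at hn hn'
      have e1 := hn.2
      have e2 := hn'.2
      unfold X at e2
      rw [← hL, div_le_iff₀ hs0] at e2
      have e3 : Real.sqrt L * Real.sqrt L = L := Real.mul_self_sqrt hL0.le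
      nlinarith
    have hun := Finset.card_union_of_disjoint hdis
    have hle : (((Icc 1 N).filter (fun n => (3 / 2) * L ≤
      ((fl ((a : ℝ) / q) 1 (1 / 2) n).primeFactors.card : ℝ))) ∪
      ((Icc 1 N).filter (fun n => X ((a : ℝ) / q) 1 (1 / 2) N n ≤ x0))).card ≤ N := by
      calc _ ≤ (Icc 1 N).card := Finset.card_le_card (Finset.union_subset (Finset.filter_subset _ _)
            (Finset.filter_subset _ _))
        _ = N := by simp
    rw [hun] at hle
    have hle' : ((((Icc 1 N).filter (fun n => (3 / 2) * L ≤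
      ((fl ((a : ℝ) / q) 1 (1 / 2) n).primeFactors.card : ℝ))).card : ℕ) : ℝ) +
      ((((Icc 1 N).filter (fun n => X ((a : ℝ) / q) 1 (1 / 2) N n ≤ x0)).card : ℕ) : ℝ) ≤ N := by
      exact_mod_cast hle
    have : (1 - 1 / (4 * (q : ℝ))) * N = N - N / (4 * q) := by ring
    rw [this]
    linarith
  have h4 := abs_le_dK ((a : ℝ) / q) 1 (1 / 2) N x0
  rw [abs_sub_comm] at h4
  have h5 := le_abs_self (Phi x0 - cdfX ((a : ℝ) / q) 1 (1 / 2) N x0)
  have h6 : 1 / (4 * (q : ℝ)) = 2 * (1 / (8 * (q : ℝ))) := by field_simp; norm_num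
  linarith

/-- the floors up to `N` do not change for a small increase of `α` -/
theorem fl_right (α : ℝ) (hα : 0 ≤ α) (N : ℕ) : ∃ ε > 0, ∀ α' : ℝ, α ≤ α' → α' < α + ε →
    ∀ n ∈ Icc 1 N, fl α' 1 (1 / 2) n = fl α 1 (1 / 2) n := by
  induction N with
  | zero => exact ⟨1, one_pos, fun α' _ _ n hn => by simp at hn⟩
  | succ N ih =>
    obtain ⟨ε, hε, h⟩ := ih
    set x : ℝ := α * ((N + 1 : ℕ) : ℝ) ^ 2 + 1 * ((N + 1 : ℕ) : ℝ) + 1 / 2 with hx
    have hx1 : x < (⌊x⌋₊ : ℝ) + 1 := Nat.lt_floor_add_one x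
    have hx0 : 0 ≤ x := by rw [hx]; positivity
    have hN : (0 : ℝ) < ((N + 1 : ℕ) : ℝ) ^ 2 := by positivity
    refine ⟨min ε (((⌊x⌋₊ : ℝ) + 1 - x) / ((N + 1 : ℕ) : ℝ) ^ 2), lt_min hε (div_pos (by linarith) hN), ?_⟩
    intro α' h1 h2 n hn
    rw [mem_Icc] at hn
    rcases Nat.lt_or_ge n (N + 1) with hlt | hge
    · exact h α' h1 (lt_of_lt_of_le h2 (by gcongr; exact min_le_left _ _)) n (mem_Icc.2 ⟨hn.1, by omega⟩)
    · have hnN : n = N + 1 := by omega
      subst hnN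
      unfold fl
      rw [← hx]
      have h3 : (α' - α) * ((N + 1 : ℕ) : ℝ) ^ 2 < (⌊x⌋₊ : ℝ) + 1 - x := by
        rw [← lt_div_iff₀ hN]
        have := min_le_right ε (((⌊x⌋₊ : ℝ) + 1 - x) / ((N + 1 : ℕ) : ℝ) ^ 2)
        linarith
      have h4 : 0 ≤ (α' - α) * ((N + 1 : ℕ) : ℝ) ^ 2 := mul_nonneg (by linarith) hN.le
      have h5 : α' * ((N + 1 : ℕ) : ℝ) ^ 2 + 1 * ((N + 1 : ℕ) : ℝ) + 1 / 2 =
          x + (α' - α) * ((N + 1 : ℕ) : ℝ) ^ 2 := by rw [hx]; ring
      rw [h5, Nat.floor_eq_iff (by linarith)]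
      constructor
      · have := Nat.floor_le hx0
        linarith
      · linarith

/-- for generic `α` the distance exceeds `j |η_N|` for some `N ≥ j` -/
theorem generic_j (η : ℕ → ℝ) (hη : Tendsto η atTop (𝓝 0)) (j : ℕ) :
    ∀ᶠ α in residual ℝ, 1 / 2 < α → ∃ N : ℕ, j ≤ N ∧ (j : ℝ) * |η N| < dK α 1 (1 / 2) N := by
  set A : Set ℝ := {α | ∃ N : ℕ, j ≤ N ∧ (j : ℝ) * |η N| < dK α 1 (1 / 2) N} with hA
  have hopen : IsOpen (interior (A ∪ Set.Iic (1 / 2))) := isOpen_interior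
  have hdense : Dense (interior (A ∪ Set.Iic (1 / 2))) := by
    rw [dense_iff_inter_open]
    rintro U hU ⟨u, hu⟩
    by_cases hcase : ∃ v ∈ U, 1 / 2 < v
    · obtain ⟨v, hvU, hv⟩ := hcase
      -- a rational in U above 1/2
      obtain ⟨r, hr1, hr2⟩ : ∃ r : ℚ, (r : ℝ) ∈ U ∧ 1 / 2 < (r : ℝ) := by
        have ho : IsOpen (U ∩ Set.Ioi (1 / 2)) := hU.inter isOpen_Ioi
        obtain ⟨x, hx, y, rfl⟩ := (Rat.isDenseEmbedding_coe_real.dense.inter_open_nonempty _ ho ⟨v, hvU, hv⟩)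
        exact ⟨y, hx.1, hx.2⟩
      have hr0 : 0 < r := by
        have : (0 : ℝ) < r := by linarith
        exact_mod_cast this
      -- r = a/q
      have hnum : 0 < r.num := Rat.num_pos.2 hr0
      set a : ℕ := r.num.toNat with ha
      have haz : (a : ℤ) = r.num := Int.toNat_of_nonneg hnum.le
      have ha1 : 1 ≤ a := by omega
      have hreq : (r : ℝ) = (a : ℝ) / (r.den : ℝ) := by
        have h1 : (a : ℝ) = ((r.num : ℤ) : ℝ) := by
          rw [← haz]; simp
        rw [h1]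
        exact Rat.cast_def r
      obtain ⟨N0, hN0⟩ := dK_rat a r.den ha1 (Nat.one_le_iff_ne_zero.2 r.den_nz)
      have hc : 0 < 1 / (8 * (r.den : ℝ)) := by
        have := r.pos
        positivity
      have hev : ∀ᶠ N : ℕ in atTop, (j : ℝ) * |η N| < 1 / (8 * (r.den : ℝ)) := by
        have : Tendsto (fun N => (j : ℝ) * |η N|) atTop (𝓝 ((j : ℝ) * |(0 : ℝ)|)) :=
          (hη.abs).const_mul _
        rw [abs_zero, mul_zero] at this
        exact this.eventually_lt_const hc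
      obtain ⟨N, hN1, hN2⟩ := (hev.and (eventually_ge_atTop (N0 + j))).exists
      have hdN := hN0 N (by omega)
      rw [← hreq] at hdN
      obtain ⟨ε, hε, hfl⟩ := fl_right (r : ℝ) (by linarith) N
      have hIoo : Set.Ioo (r : ℝ) ((r : ℝ) + ε) ⊆ A := by
        intro α' hα'
        refine ⟨N, by omega, ?_⟩
        rw [dK_congr α' (r : ℝ) 1 (1 / 2) N (hfl α' hα'.1.le hα'.2)]
        linarith
      have hint : Set.Ioo (r : ℝ) ((r : ℝ) + ε) ⊆ interior (A ∪ Set.Iic (1 / 2)) :=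
        interior_maximal (hIoo.trans Set.subset_union_left) isOpen_Ioo
      -- U contains a point of the interval
      obtain ⟨δ, hδ, hball⟩ := Metric.isOpen_iff.1 hU (r : ℝ) hr1
      refine ⟨(r : ℝ) + min δ ε / 2, hball ?_, hint ⟨?_, ?_⟩⟩
      · rw [Metric.mem_ball, Real.dist_eq]
        have : 0 < min δ ε := lt_min hδ hε
        have h2 := min_le_left δ ε
        rw [show (r : ℝ) + min δ ε / 2 - r = min δ ε / 2 by ring, abs_of_pos (by linarith)]
        linarith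
      · have : 0 < min δ ε := lt_min hδ hε
        linarith
      · have : 0 < min δ ε := lt_min hδ hε
        have h2 := min_le_right δ ε
        linarith
    · push Not at hcase
      refine ⟨u, hu, ?_⟩
      rw [mem_interior]
      exact ⟨U, fun x hx => Or.inr (hcase x hx), hU, hu⟩
  filter_upwards [residual_of_dense_open hopen hdense] with α hα hα2
  rcases interior_subset hα with h | h
  · exact h
  · exact absurd hα2 (not_lt.2 h)

theorem generic (η : ℕ → ℝ) (hη : Tendsto η atTop (𝓝 0)) :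
    ∀ᶠ α in residual ℝ, 1 / 2 < α →
      Admissible α 1 (1 / 2) ∧ ¬ (fun N => dK α 1 (1 / 2) N) =O[atTop] η := by
  have h1 : ∀ᶠ α in residual ℝ, ∀ j : ℕ, 1 / 2 < α → ∃ N : ℕ, j ≤ N ∧ (j : ℝ) * |η N| < dK α 1 (1 / 2) N :=
    eventually_countable_forall.2 (generic_j η hη)
  filter_upwards [h1, eventually_residual_irrational] with α h2 h3 h4
  refine ⟨⟨by linarith, by linarith, ?_⟩, ?_⟩
  · rintro ⟨a, _, ha, _⟩
    exact h3 ⟨a, ha.symm⟩
  · intro hO
    obtain ⟨c, hc⟩ := hO.bound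
    obtain ⟨N0, hN0⟩ := hc.exists_forall_of_atTop
    obtain ⟨k, hk⟩ := exists_nat_ge c
    obtain ⟨N, hN1, hN2⟩ := h2 (k + N0) h4
    have h5 := hN0 N (by omega)
    rw [Real.norm_eq_abs, Real.norm_eq_abs] at h5
    have h6 := le_abs_self (dK α 1 (1 / 2) N)
    have h7 : c * |η N| ≤ ((k + N0 : ℕ) : ℝ) * |η N| := by
      apply mul_le_mul_of_nonneg_right _ (abs_nonneg _)
      push_cast
      have : (0 : ℝ) ≤ N0 := by positivity
      linarith
    linarith

theorem main (η : ℕ → ℝ) (hη : Tendsto η atTop (𝓝 0)) :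
    ∃ α : ℝ, 1 / 2 < α ∧ Admissible α 1 (1 / 2) ∧ ¬ (fun N => dK α 1 (1 / 2) N) =O[atTop] η := by
  have h := dense_of_mem_residual (generic η hη)
  obtain ⟨α, h1, h2⟩ := h.inter_open_nonempty (Set.Ioi (1 / 2)) isOpen_Ioi ⟨1, by norm_num⟩
  exact ⟨α, h1, h2 h1⟩

end Pool.Agent.X67.EK
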